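import Pool.Agent.W388.TW.D0

/-!
# TW-Cusp : cusp forms decay at all cusps, uniformly
-/

set_option autoImplicit false

open Complex Filter Topology Set UpperHalfPlane MatrixGroups CongruenceSubgroup Asymptotics
open scoped ModularForm

namespace W375.TWCusp

open ConjAct Pointwise ModularForm

variable {N : ℕ} {k : ℤ}

/-- the Petersson function is the function we want to bound. -/
lemma norm_pet (f : ℍ → ℂ) (τ : ℍ) : ‖petersson k f f τ‖ = ‖f τ‖ ^ 2 * τ.im ^ k := by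
  rw [petersson, norm_mul, norm_mul, Complex.norm_conj, norm_zpow, Complex.norm_real,
    Real.norm_of_nonneg τ.im_pos.le]
  ring

lemma arith_conj [NeZero N] (g : SL(2, ℤ)) :
    ((toConjAct (g : GL (Fin 2) ℝ)⁻¹) • (Gamma0 N : Subgroup (GL (Fin 2) ℝ))).IsArithmetic := by
  simpa [(show Rat.castHom ℝ = algebraMap ℚ ℝ by rfl), map_inv, Matrix.SpecialLinearGroup.map_mapGL]
    using! Subgroup.IsArithmetic.conj (Gamma0 N : Subgroup (GL (Fin 2) ℝ)) (Matrix.SpecialLinearGroup.mapGL ℚ g)⁻¹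

/-- exponential decay at one cusp. -/
lemma exp_decay_one [NeZero N] (f : CuspForm (Gamma0 N : Subgroup (GL (Fin 2) ℝ)) k)
    (g : SL(2, ℤ)) :
    ∃ a : ℝ, 0 < a ∧ (fun τ : ℍ => ‖petersson k f f (g • τ)‖) =O[atImInfty]
      fun τ : ℍ ↦ Real.exp (-a * τ.im) := by
  have := arith_conj (N := N) g
  obtain ⟨a, ha, h⟩ := (CuspFormClass.zero_at_infty
    (CuspForm.translate f (g : GL (Fin 2) ℝ))).petersson_exp_decay_left k _
    (CuspForm.translate f (g : GL (Fin 2) ℝ))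
  refine ⟨a, ha, ?_⟩
  refine (h.norm_left).congr_left ?_
  intro τ
  rw [← UpperHalfPlane.petersson_slash_SL]
  rfl

/-- the bound at one cusp. -/
lemma bound_one [NeZero N] (f : CuspForm (Gamma0 N : Subgroup (GL (Fin 2) ℝ)) k)
    (g : SL(2, ℤ)) :
    ∃ C : ℝ, ∀ z : ℍ, 1 / 2 ≤ z.im → ‖petersson k f f (g • z)‖ * z.im ^ 8 ≤ C := by
  obtain ⟨C0, hC0⟩ := CuspFormClass.petersson_bounded_left k
    (Gamma0 N : Subgroup (GL (Fin 2) ℝ)) f f
  obtain ⟨a, ha, h⟩ := exp_decay_one f g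
  have ha : (0:ℝ) < a := ha
  obtain ⟨c, hc, h⟩ := h.exists_pos
  rw [isBigOWith_iff] at h
  -- exp beats power
  have h2 : (fun t : ℝ => t ^ (8 : ℕ)) =O[atTop] fun t => Real.exp (a * t) :=
    (isLittleO_pow_exp_pos_mul_atTop (b := a) 8 ha).isBigO
  obtain ⟨c', hc', h2⟩ := h2.exists_pos
  rw [isBigOWith_iff] at h2
  rw [atImInfty, eventually_comap] at h
  obtain ⟨A, hA⟩ := (h.and h2).exists_forall_of_atTop
  refine ⟨max (c * c') (C0 * (max A 1) ^ 8), fun z hz => ?_⟩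
  have hz0 := z.im_pos
  rcases le_total A z.im with h1 | h1
  · obtain ⟨h3, h4⟩ := hA _ h1
    have h3 := h3 z rfl
    refine le_trans ?_ (le_max_left _ _)
    simp only [Real.norm_eq_abs, Real.abs_exp, abs_norm] at h3 h4
    rw [abs_of_nonneg (by positivity)] at h4
    calc _ ≤ (c * Real.exp (-a * z.im)) * (c' * Real.exp (a * z.im)) := by
          gcongr
      _ = c * c' * (Real.exp (-a * z.im) * Real.exp (a * z.im)) := by ring
      _ = c * c' := by rw [← Real.exp_add]; simp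
  · refine le_trans ?_ (le_max_right _ _)
    have := hC0 (g • z)
    have h0 : 0 ≤ C0 := (norm_nonneg _).trans this
    gcongr
    exact h1.trans (le_max_left _ _)

end W375.TWCusp

namespace W388

open W375.TWCusp

/-- **TW-Cusp** -/
theorem t_cusp : StCusp := by
  intro N _ k f
  classical
  choose C hC using bound_one f
  have hfin : Finite (SL(2, ℤ) ⧸ Gamma0 N) := inferInstance
  have : Fintype (SL(2, ℤ) ⧸ Gamma0 N) := Fintype.ofFinite _
  let K : ℝ := ∑ q : SL(2, ℤ) ⧸ Gamma0 N, |C (q.out)⁻¹|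
  refine ⟨K + 1, by positivity, fun ρ z hz => ?_⟩
  have h1 : ∃ γ : Gamma0 N, (Quotient.out (QuotientGroup.mk ρ⁻¹ : SL(2, ℤ) ⧸ Gamma0 N)) =
      ρ⁻¹ * γ := QuotientGroup.mk_out_eq_mul _ _
  obtain ⟨γ, hγ⟩ := h1
  set q : SL(2, ℤ) ⧸ Gamma0 N := (QuotientGroup.mk ρ⁻¹ : SL(2, ℤ) ⧸ Gamma0 N) with hq
  have h2 := hC (q.out)⁻¹ z hz
  have h3 : ‖petersson k f f ((q.out)⁻¹ • z)‖ = ‖petersson k f f (ρ • z)‖ := by
    rw [hγ, mul_inv_rev, inv_inv, mul_smul]
    have h5 : (((γ : SL(2, ℤ))⁻¹ : SL(2, ℤ)) : GL (Fin 2) ℝ) ∈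
        (Gamma0 N : Subgroup (GL (Fin 2) ℝ)) := by
      refine Subgroup.mem_map_of_mem _ ?_
      exact (Gamma0 N).inv_mem γ.2
    exact SlashInvariantFormClass.norm_petersson_smul (τ := ρ • z) (f := f) (f' := f) h5
  rw [h3] at h2
  rw [← norm_pet]
  refine h2.trans ?_
  calc C (q.out)⁻¹ ≤ |C (q.out)⁻¹| := le_abs_self _
    _ ≤ K := Finset.single_le_sum (f := fun q : SL(2, ℤ) ⧸ Gamma0 N => |C (q.out)⁻¹|)
        (fun _ _ => abs_nonneg _) (Finset.mem_univ q)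
    _ ≤ K + 1 := by linarith

end W388
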